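import Pool.Agent.Helper19.Wh.General

/-!
# Elements of dimension two in Whitehead groups

For every group `π`, every `t` in `π` with `t ^ 5 = 1` and every `k` there is a trivial presentation datum
with `k` generators whose matrix is the diagonal matrix with entries the unit `u = -1 + t + t ^ 4`. If
`t` is not trivial in the abelianisation of `π` and `k > 0` its Whitehead torsion `k [u]` is not zero. The same
holds with `t ^ 2` in place of `t`, and `-1 + t ^ 2 + t ^ 8` is the inverse of `u`. So all nonzero multiples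
of `[u]` have dimension 2.
-/

set_option autoImplicit false

namespace Pool.Agent.Results.MP_bafecb_gt.DimensionTwo

/-- A presentation datum over the group `π` with the `n` generators `x_j`, `j : Fin n`. The relator
`r_i` is given by the list of the triples `(g, j, ε)` of its factors `g x_j ^ ε g⁻¹`, `g ∈ π`. -/
abbrev Datum (π : Type) (n : ℕ) : Type := Fin n → List (π × Fin n × ℤˣ)

variable {π : Type} [Group π] {n : ℕ}

/-- The relator `r_i`, the product of the factors `g x_j ^ ε g⁻¹`, in the free product of `π` and the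
free group on the `x_j`. -/
noncomputable def relator (P : Datum π n) (i : Fin n) : Monoid.Coprod π (FreeGroup (Fin n)) :=
  ((P i).map fun s => Monoid.Coprod.inl s.1 *
    Monoid.Coprod.inr (FreeGroup.of s.2.1) ^ ((s.2.2 : ℤˣ) : ℤ) * (Monoid.Coprod.inl s.1)⁻¹).prod

/-- The matrix `X(P)`: the entry at `(i, j)` is the sum of `ε g` over the factors of `r_i` with
generator `x_j`. -/
noncomputable def mat (P : Datum π n) : Matrix (Fin n) (Fin n) (MonoidAlgebra ℤ π) :=
  Matrix.of fun i j => ((P i).map fun s =>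
    if s.2.1 = j then MonoidAlgebra.single s.1 ((s.2.2 : ℤˣ) : ℤ) else 0).sum

/-- `P` is trivial: the kernel of the homomorphism from the free product to `π` which is the identity
on `π` and maps all `x_j` to `1` is the normal closure of the relators, i.e. `π(P) → π` is an
isomorphism. -/
def IsTrivial (P : Datum π n) : Prop :=
  (Monoid.Coprod.lift (MonoidHom.id π) (1 : FreeGroup (Fin n) →* π)).ker =
    Subgroup.normalClosure (Set.range (relator P))

/-- The class of `X` in `Wh(π)` is zero: after adding an identity matrix, `X` is a product of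
elementary matrices and of a diagonal matrix with entries `± g`, `g ∈ π`. -/
def ZeroTorsion (X : Matrix (Fin n) (Fin n) (MonoidAlgebra ℤ π)) : Prop :=
  ∃ (m : ℕ) (E : List ((Fin n ⊕ Fin m) × (Fin n ⊕ Fin m) × MonoidAlgebra ℤ π))
    (d : Fin n ⊕ Fin m → π) (s : Fin n ⊕ Fin m → ℤˣ),
    (∀ e ∈ E, e.1 ≠ e.2.1) ∧
    Matrix.fromBlocks X 0 0 (1 : Matrix (Fin m) (Fin m) (MonoidAlgebra ℤ π)) =
      (E.map (fun e => (1 : Matrix (Fin n ⊕ Fin m) (Fin n ⊕ Fin m) (MonoidAlgebra ℤ π)) +
          Matrix.of (fun a b => if a = e.1 ∧ b = e.2.1 then e.2.2 else 0))).prod *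
        Matrix.diagonal (fun k => MonoidAlgebra.single (d k) ((s k : ℤˣ) : ℤ))

/-- The element `-1 + t + t ^ 4` of the integral group ring. -/
noncomputable def u (t : π) : MonoidAlgebra ℤ π :=
  MonoidAlgebra.single 1 (-1) + (MonoidAlgebra.single t 1 + MonoidAlgebra.single (t ^ 4) 1)

/-- If `t ^ 5 = 1` then `u t` is a unit with inverse `u (t ^ 2)`, and for every `k` there is a trivial
presentation datum with `k` generators and matrix `diag(u t, ..., u t)`. If moreover `t` is not trivial in the
abelianisation of `π` and `k > 0`, the torsion of this matrix and that of `diag(u (t ^ 2), ..., u (t ^ 2))`,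
which is the matrix of a trivial datum as well, are not zero. -/
theorem result (π : Type) [Group π] (t : π) (ht : t ^ 5 = 1) :
    u t * u (t ^ 2) = 1 ∧ u (t ^ 2) * u t = 1 ∧
    (∀ k : ℕ, ∃ P : Datum π k, IsTrivial P ∧ mat P = Matrix.diagonal fun _ => u t) ∧
    (∀ k : ℕ, ∃ P : Datum π k, IsTrivial P ∧ mat P = Matrix.diagonal fun _ => u (t ^ 2)) ∧
    (Abelianization.of t ≠ 1 → ∀ k : ℕ, 0 < k →
      ¬ ZeroTorsion (Matrix.diagonal fun _ : Fin k => u t) ∧
      ¬ ZeroTorsion (Matrix.diagonal fun _ : Fin k => u (t ^ 2))) := by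
  have ht2 : (t ^ 2) ^ 5 = 1 := by rw [← pow_mul, mul_comm, pow_mul, ht, one_pow]
  have h4 : (t ^ 2) ^ 2 = t⁻¹ := by
    rw [eq_inv_iff_mul_eq_one, ← pow_mul, ← pow_succ]
    exact ht
  have hu4 : u ((t ^ 2) ^ 2) = u t := by
    have h1 : (t⁻¹) ^ 4 = t := by
      rw [inv_pow, inv_eq_iff_mul_eq_one, ← pow_succ]
      exact ht
    have h2 : t ^ 4 = t⁻¹ := by
      rw [eq_inv_iff_mul_eq_one, ← pow_succ]
      exact ht
    rw [h4]
    simp only [u]
    rw [h1, h2, add_comm (MonoidAlgebra.single t⁻¹ (1 : ℤ))]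
  refine ⟨Pool.Agent.Helper19.Wh.uu_mul_uu t ht, ?_, fun k => ?_, fun k => ?_, fun hab k hk => ?_⟩
  · have := Pool.Agent.Helper19.Wh.uu_mul_uu (t ^ 2) ht2
    change u (t ^ 2) * u ((t ^ 2) ^ 2) = 1 at this
    rwa [hu4] at this
  · exact ⟨Pool.Agent.Helper19.Wh.datum t k, Pool.Agent.Helper19.Wh.isTrivial_datum t ht k,
      Pool.Agent.Helper19.Wh.mat_datum t k⟩
  · exact ⟨Pool.Agent.Helper19.Wh.datum (t ^ 2) k,
      Pool.Agent.Helper19.Wh.isTrivial_datum (t ^ 2) ht2 k,
      Pool.Agent.Helper19.Wh.mat_datum (t ^ 2) k⟩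
  · constructor
    · have := Pool.Agent.Helper19.Wh.not_zeroTorsion t ht hab hk.ne'
      rw [Pool.Agent.Helper19.Wh.mat_datum] at this
      exact this
    · have hab2 : Abelianization.of (t ^ 2) ≠ 1 := by
        intro h
        apply hab
        have h1 : Abelianization.of t = Abelianization.of (t ^ 5) *
            (Abelianization.of (t ^ 2) * Abelianization.of (t ^ 2))⁻¹ := by
          rw [← map_mul, ← map_inv, ← map_mul]
          congr 1
          group
        rw [h1, h, ht, map_one]
        simp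
      have := Pool.Agent.Helper19.Wh.not_zeroTorsion (t ^ 2) ht2 hab2 hk.ne'
      rw [Pool.Agent.Helper19.Wh.mat_datum] at this
      exact this

end Pool.Agent.Results.MP_bafecb_gt.DimensionTwo
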